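import Pool.Agent.W370.Hughes.Grp

/-!
# Finite p-groups violating the Hughes conjecture
-/

set_option autoImplicit false
set_option linter.unusedSectionVars false

namespace Pool.Agent.Y111.HU

open Pool.Agent.W370.Hughes
open NC Tr Po

variable {p : ℕ} [Fact p.Prime]

theorem pair_eq_of_agree (T : Tr) (n : ℕ) (hT : sup T n n = true) (u v c d : NC (ZMod p))
    (h : ∀ w : List Bool, w.length ≤ 2 * n → c w = d w) :
    pair T (u * c * v) = pair T (u * d * v) := by
  have h1 : pair T (u * (c - d) * v) = 0 := by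
    rw [mul_assoc]
    refine pair_eq_zero T n n hT _ (fun w h1 h2 => mul_eq_zero_of w _ _ (fun a b hab => Or.inr ?_))
    refine mul_eq_zero_of b _ _ (fun a' b' hab' => Or.inl ?_)
    rw [NC.sub_apply, h a' ?_, sub_self]
    have hl : a.length + b.length = w.length := by rw [← List.length_append, hab]
    have hl' : a'.length + b'.length = b.length := by rw [← List.length_append, hab']
    have := List.count_true_add_count_false w
    omega
  have h2 : u * c * v = u * (c - d) * v + u * d * v := by
    rw [mul_sub, sub_mul, sub_add_cancel]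
  rw [h2, pair_add, h1, zero_add]

theorem con_of_agree (c d : QQ p) (h : ∀ w : List Bool, w.length ≤ 12 → c.1 w = d.1 w) :
    con p c d := by
  refine ⟨fun x => h [x] (by simp), fun u v => ?_, fun _ u v => ?_⟩
  · exact pair_eq_of_agree T4 4 T4_sup u v _ _ (fun w hw => h w (by omega))
  · exact pair_eq_of_agree T6 6 T6_sup u v _ _ (fun w hw => h w (by omega))

theorem finite_QB : Finite (QB p) := by
  classical
  have hW : Finite {w : List Bool | w.length ≤ 12} := (List.finite_length_le Bool 12).to_subtype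
  let s : QB p → QQ p := Function.surjInv (Con.mk'_surjective (c := con p))
  have hs : ∀ q, ((s q : QQ p) : QB p) = q := Function.surjInv_eq (Con.mk'_surjective (c := con p))
  refine Finite.of_injective
    (fun q : QB p => fun w : {w : List Bool | w.length ≤ 12} => (s q).1 w.1) ?_
  intro q q' hqq
  rw [← hs q, ← hs q', Con.eq]
  exact con_of_agree _ _ (fun w hw => congrFun hqq ⟨w, hw⟩)

theorem GG_finite (Q : Type) [Group Q] [Finite Q] (K : Subgroup Q) : Finite (GG p Q K) := by
  have : NeZero (p ^ 2) := ⟨pow_ne_zero 2 (Fact.out : p.Prime).ne_zero⟩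
  have h1 : Finite (MM p Q K) :=
    Finite.of_injective (fun f : MM p Q K => (f.1 : Q → ZMod (p ^ 2)))
      (fun f g h => Subtype.ext h)
  have h2 : Finite (Multiplicative (MM p Q K)) := h1
  exact Finite.of_injective (fun g : GG p Q K => (g.left, g.right)) (fun a b h =>
    SemidirectProduct.ext (congrArg Prod.fst h) (congrArg Prod.snd h))

theorem GG_isPGroup (Q : Type) [Group Q] (K : Subgroup Q) (hQ : ∀ q : Q, q ^ p ^ 2 = 1) :
    IsPGroup p (GG p Q K) := by
  intro g
  refine ⟨4, ?_⟩
  have hr : (g ^ p ^ 2).right = 1 := by rw [(GG_pow p Q K g (p ^ 2)).1, hQ]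
  have e : g ^ p ^ 4 = (g ^ p ^ 2) ^ p ^ 2 := by
    rw [← pow_mul]
    congr 1
    ring
  rw [e]
  set x := g ^ p ^ 2 with hx
  obtain ⟨h1, h2⟩ := GG_pow p Q K x (p ^ 2)
  apply SemidirectProduct.ext
  · apply Multiplicative.toAdd.injective
    apply Subtype.ext
    funext c
    rw [h2 c]
    show _ = (0 : ZMod (p ^ 2))
    simp only [hr, one_pow, mul_one]
    rw [Finset.sum_const, Finset.card_range, nsmul_eq_mul]
    have : ((p ^ 2 : ℕ) : ZMod (p ^ 2)) = 0 := ZMod.natCast_self _
    rw [this, zero_mul]
  · rw [h1, hr, one_pow]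
    rfl

theorem QB_pow (hp : 3 < p) (x : QB p) : x ^ p ^ 2 = 1 := by
  induction x using Con.induction_on with
  | H c =>
    have e : (c : QB p) ^ p ^ 2 = ((c ^ p ^ 2 : QQ p) : QB p) := (map_pow (con p).mk' c _).symm
    rw [e, ← Con.coe_one, Con.eq]
    exact con_pow_sq hp c

/-- the counterexample is a finite `p`-group -/
theorem main_finite (hp : 3 < p) : ∃ (G : Type) (_ : Group G), Finite G ∧ IsPGroup p G ∧
    hughesSubgroup G p ≠ ⊥ ∧ p ^ 2 ∣ (hughesSubgroup G p).index := by
  let _ := grp (p := p) hp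
  have hfin : Finite (QB p) := finite_QB
  set K : Subgroup (QB p) := (pi p).ker with hKdef
  have hmem : ∀ c : QQ p, (c : QB p) ∈ K ↔ (c.1 [false] = 0 ∧ c.1 [true] = 0) := by
    intro c
    rw [hKdef, MonoidHom.mem_ker, pi_coe]
    constructor
    · intro h
      have h1 : (c.1 [false], c.1 [true]) = (0, 0) := h
      exact ⟨congrArg Prod.fst h1, congrArg Prod.snd h1⟩
    · rintro ⟨h1, h2⟩
      rw [h1, h2]; rfl
  have hidx : K.index = p ^ 2 := by
    rw [hKdef, Subgroup.index_ker, MonoidHom.range_eq_top.2 pi_surj]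
    rw [Subgroup.card_top]
    show Nat.card (ZMod p × ZMod p) = _
    rw [Nat.card_prod, Nat.card_zmod, sq]
  have hQ : ∀ q : QB p, q ∉ K → q ^ p = 1 := by
    intro q hq
    induction q using Con.induction_on with
    | H c =>
      rw [hmem] at hq
      have := (Con.eq (con p)).2 (con_pow_p hp c hq)
      rw [coe_pow] at this
      exact this
  have hF : ∀ q : QB p, q ∉ K → ∀ c, ∑ j ∈ Finset.range p, FQ hp (q ^ j * c) = -1 := by
    intro q hq c
    induction q using Con.induction_on with
    | H q =>
      induction c using Con.induction_on with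
      | H c =>
        rw [hmem] at hq
        rw [← line hp q.1 c.1 q.2 c.2 hq]
        refine Finset.sum_congr rfl (fun j _ => ?_)
        have : (q : QB p) ^ j * (c : QB p) = ((q ^ j * c : QQ p) : QB p) := by
          rw [Con.coe_mul, coe_pow]
        rw [this, FQ_coe]
        rfl
  obtain ⟨h1, -, h3⟩ := hughes_of_data (QB p) K hQ hidx (FQ hp) hF
  exact ⟨GG p (QB p) K, inferInstance, GG_finite (QB p) K, GG_isPGroup (QB p) K (QB_pow hp), h1, h3⟩

/-- passing to a subgroup between the Hughes subgroup and the group -/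
theorem hughes_subgroupOf {G : Type} [Group G] (L : Subgroup G) (hL : hughesSubgroup G p ≤ L) :
    hughesSubgroup L p = (hughesSubgroup G p).subgroupOf L := by
  apply le_antisymm
  · rw [hughesSubgroup, Subgroup.closure_le]
    intro g hg
    rw [SetLike.mem_coe, Subgroup.mem_subgroupOf]
    apply Subgroup.subset_closure
    show orderOf (g : G) ≠ p
    rw [Subgroup.orderOf_coe]
    exact hg
  · intro x hx
    rw [Subgroup.mem_subgroupOf] at hx
    have hle : hughesSubgroup G p ≤ (hughesSubgroup L p).map L.subtype := by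
      rw [hughesSubgroup, Subgroup.closure_le]
      intro g hg
      have hgL : g ∈ L := hL (Subgroup.subset_closure hg)
      refine ⟨⟨g, hgL⟩, Subgroup.subset_closure ?_, rfl⟩
      show orderOf (⟨g, hgL⟩ : L) ≠ p
      rw [← Subgroup.orderOf_coe]
      exact hg
    obtain ⟨y, hy, hyx⟩ := hle hx
    have : y = x := Subtype.ext hyx
    rwa [← this]

/-- for every prime `p > 3` there is a finite `p`-group whose Hughes subgroup is nontrivial and has
index exactly `p ^ 2` -/
theorem main_exact (hp : 3 < p) : ∃ (G : Type) (_ : Group G), Finite G ∧ IsPGroup p G ∧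
    hughesSubgroup G p ≠ ⊥ ∧ (hughesSubgroup G p).index = p ^ 2 := by
  have hpp : p.Prime := Fact.out
  obtain ⟨G, _, hfin, hG, h1, h2⟩ := main_finite (p := p) hp
  set H := hughesSubgroup G p with hH
  obtain ⟨a, ha⟩ := (IsPGroup.iff_card.1 (hG.to_subgroup H))
  have hdvd : p ^ (a + 2) ∣ Nat.card G := by
    rw [← H.card_mul_index, ha, pow_add]
    exact Nat.mul_dvd_mul_left _ h2
  obtain ⟨L, hL, hHL⟩ := Sylow.exists_subgroup_card_pow_prime_le p hdvd H ha (by omega)
  refine ⟨L, inferInstance, inferInstance, hG.to_subgroup L, ?_, ?_⟩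
  · rw [hughes_subgroupOf L hHL, Ne, Subgroup.subgroupOf_eq_bot]
    intro h
    apply h1
    exact (disjoint_self.1 (h.mono_right hHL))
  · rw [hughes_subgroupOf L hHL]
    have h3 := (H.subgroupOf L).card_mul_index
    rw [Nat.card_congr (Subgroup.subgroupOfEquivOfLe hHL).toEquiv, ha, hL, pow_add] at h3
    exact Nat.eq_of_mul_eq_mul_left (pow_pos hpp.pos a) h3

end Pool.Agent.Y111.HU
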